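import Pool.Agent.R497.TD.Defs
import Pool.Agent.Y312.MC.Flw3
import Pool.Agent.Y957.MC.Flw1

/-! (APX) approximation by functions which are Lipschitz along the flow (for helper497, MP_4d8f14_an). -/

set_option autoImplicit false

namespace Pool.Agent.R574.TDAPX

open MeasureTheory Filter Finset
open Pool.Agent.Y957.MC (IsFlow flowInv smo)
open Pool.Agent.R497.TD

universe u

theorem norm_le_parts (z : ℂ) : ‖z‖ ≤ |z.re| + |z.im| := Complex.norm_le_abs_re_add_abs_im z

theorem t_APX : S_APX.{u} := by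
  intro X mX μ _ τ f hF hf hfb
  obtain ⟨C, hC⟩ := hfb
  obtain ⟨x0⟩ : Nonempty X := nonempty_of_isProbabilityMeasure μ
  have hC0 : 0 ≤ C := (norm_nonneg _).trans (hC x0)
  have hm := Pool.Agent.Y312.MC.flowInv_le (mX := mX) τ
  set fr : X → ℝ := fun x => (f x).re with hfr
  set fi : X → ℝ := fun x => (f x).im with hfi
  have hrm : Measurable fr := Complex.measurable_re.comp hf
  have him : Measurable fi := Complex.measurable_im.comp hf
  have hrb : ∀ x, |fr x| ≤ C := fun x => (Complex.abs_re_le_norm _).trans (hC x)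
  have hib : ∀ x, |fi x| ≤ C := fun x => (Complex.abs_im_le_norm _).trans (hC x)
  have hpos : ∀ j : ℕ, 0 < 1 / ((j : ℝ) + 1) := fun j => by positivity
  set gr : ℕ → X → ℝ := fun j => smo τ fr (1 / ((j : ℝ) + 1)) with hgr
  set gi : ℕ → X → ℝ := fun j => smo τ fi (1 / ((j : ℝ) + 1)) with hgi
  have hgrm : ∀ j, Measurable (gr j) := fun j => Pool.Agent.Y312.MC.smo_meas hF hrm (hpos j)
  have hgim : ∀ j, Measurable (gi j) := fun j => Pool.Agent.Y312.MC.smo_meas hF him (hpos j)
  have hgrb : ∀ j x, |gr j x| ≤ C := fun j x => Pool.Agent.Y312.MC.smo_bdd hrb (hpos j) x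
  have hgib : ∀ j x, |gi j x| ≤ C := fun j x => Pool.Agent.Y312.MC.smo_bdd hib (hpos j) x
  set fk : ℕ → X → ℂ := fun j x => ⟨gr j x, gi j x⟩ with hfk
  have hfkm : ∀ j, Measurable (fk j) := by
    intro j
    have h1 : fk j = fun x => ((gr j x : ℝ) : ℂ) + ((gi j x : ℝ) : ℂ) * Complex.I := by
      funext x
      exact Complex.mk_eq_add_mul_I _ _
    rw [h1]
    exact (Complex.measurable_ofReal.comp (hgrm j)).add
      ((Complex.measurable_ofReal.comp (hgim j)).mul_const _)
  set e : ℕ → X → ℝ := fun j x => ‖f x - fk j x‖ with he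
  have hem : ∀ j, Measurable (e j) := fun j => (hf.sub (hfkm j)).norm
  have he0 : ∀ j x, 0 ≤ e j x := fun j x => norm_nonneg _
  have hle : ∀ j x, e j x ≤ |fr x - gr j x| + |fi x - gi j x| := by
    intro j x
    refine (norm_le_parts _).trans (le_of_eq ?_)
    rw [Complex.sub_re, Complex.sub_im]
  have hint : ∀ j, Integrable (fun x => |fr x - gr j x|) μ := fun j =>
    Pool.Agent.Y312.MC.int_bdd (hrm.sub (hgrm j)).abs (C := 2 * C) fun x => by
      rw [abs_abs]
      exact (abs_sub _ _).trans (by linarith [hrb x, hgrb j x])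
  have hint' : ∀ j, Integrable (fun x => |fi x - gi j x|) μ := fun j =>
    Pool.Agent.Y312.MC.int_bdd (him.sub (hgim j)).abs (C := 2 * C) fun x => by
      rw [abs_abs]
      exact (abs_sub _ _).trans (by linarith [hib x, hgib j x])
  have hei : ∀ j, Integrable (e j) μ := fun j =>
    Pool.Agent.Y312.MC.int_bdd (hem j) (C := 4 * C) fun x => by
      rw [abs_of_nonneg (he0 j x)]
      refine (hle j x).trans ?_
      have h1 := abs_sub (fr x) (gr j x)
      have h2 := abs_sub (fi x) (gi j x)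
      linarith [hrb x, hgrb j x, hib x, hgib j x]
  have heint : Tendsto (fun j => ∫ x, e j x ∂μ) atTop (nhds 0) := by
    have h1 := (Pool.Agent.Y312.MC.smo_L1 hF hrm hrb (μ := μ)).add
      (Pool.Agent.Y312.MC.smo_L1 hF him hib (μ := μ))
    rw [add_zero] at h1
    refine squeeze_zero (fun j => integral_nonneg fun x => he0 j x) (fun j => ?_) h1
    rw [← integral_add (hint j) (hint' j)]
    exact integral_mono (hei j) ((hint j).add (hint' j)) (fun x => hle j x)
  have hinf : ∀ᵐ x ∂μ, ∀ k : ℕ, ∃ j, (μ[e j | flowInv τ]) x < 1 / ((k : ℝ) + 1) := by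
    rw [ae_all_iff]
    intro k
    have hk : 0 < 1 / ((k : ℝ) + 1) := hpos k
    have hmk : ∀ j, 1 / ((k : ℝ) + 1) * μ.real {x | 1 / ((k : ℝ) + 1) ≤ (μ[e j | flowInv τ]) x} ≤ ∫ x, e j x ∂μ := by
      intro j
      have e1 : 0 ≤ᵐ[μ] μ[e j | flowInv τ] := condExp_nonneg (ae_of_all _ fun x => he0 j x)
      have e2 := mul_meas_ge_le_integral_of_nonneg e1 integrable_condExp (1 / ((k : ℝ) + 1))
      rwa [integral_condExp hm] at e2
    have hbad : μ.real {x | ¬ ∃ j, (μ[e j | flowInv τ]) x < 1 / ((k : ℝ) + 1)} ≤ 0 := by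
      have e3 : ∀ j, 1 / ((k : ℝ) + 1) * μ.real {x | ¬ ∃ j, (μ[e j | flowInv τ]) x < 1 / ((k : ℝ) + 1)} ≤
          ∫ x, e j x ∂μ := by
        intro j
        refine le_trans (mul_le_mul_of_nonneg_left ?_ hk.le) (hmk j)
        refine measureReal_mono ?_ (measure_ne_top _ _)
        intro x hx
        simp only [Set.mem_ofPred_eq, not_exists, not_lt] at hx ⊢
        exact hx j
      have e4 := ge_of_tendsto' heint e3
      nlinarith
    have : μ {x | ¬ ∃ j, (μ[e j | flowInv τ]) x < 1 / ((k : ℝ) + 1)} = 0 := by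
      have e5 := le_antisymm hbad measureReal_nonneg
      rwa [measureReal_eq_zero_iff] at e5
    exact this
  refine ⟨fk, hfkm, ⟨2 * C, ?_⟩, ?_, ?_⟩
  · intro k x
    refine (norm_le_parts _).trans ?_
    have h1 := hgrb k x
    have h2 := hgib k x
    show |gr k x| + |gi k x| ≤ _
    linarith
  · intro k
    refine ⟨2 * C / (1 / ((k : ℝ) + 1)) + 2 * C / (1 / ((k : ℝ) + 1)), ?_⟩
    intro u v x
    refine (norm_le_parts _).trans ?_
    rw [Complex.sub_re, Complex.sub_im, add_mul]
    exact add_le_add (Pool.Agent.Y957.MC.smo_lip hF hrm hrb (hpos k) x u v)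
      (Pool.Agent.Y957.MC.smo_lip hF him hib (hpos k) x u v)
  · filter_upwards [hinf] with x hx ε hε
    obtain ⟨k, hk⟩ := exists_nat_one_div_lt hε
    obtain ⟨j, hj⟩ := hx k
    exact ⟨j, hj.trans hk⟩

end Pool.Agent.R574.TDAPX
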